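import Pool.Agent.H53.GR.Targets

/-!
# The Ramsey property of universal ordered structures, row NR3
-/

set_option autoImplicit false

namespace Pool.Agent.H1.GR

open Pool.Agent.H68.BP Pool.Agent.H58.SF Pool.Agent.H53.GC Pool.Agent.H53.NR Pool.Agent.H53.GR

private theorem finite_str (τ : Sig) (W : Type) [Finite W] : Finite (Str τ W) := by
  unfold Str
  infer_instance

/-- the list of the structures with at most `n` elements -/
private theorem exists_list (τ : Sig) (n : ℕ) :
    ∃ l : List (Σ a : ℕ, Str τ (Fin a)),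
      ∀ (a : ℕ) (𝔸 : Str τ (Fin a)), a ≤ n → (⟨a, 𝔸⟩ : Σ a : ℕ, Str τ (Fin a)) ∈ l := by
  classical
  have hfin : {p : Σ a : ℕ, Str τ (Fin a) | p.1 ≤ n}.Finite := by
    have h1 : {p : Σ a : ℕ, Str τ (Fin a) | p.1 ≤ n} ⊆
        ⋃ a ∈ Set.Iic n, Set.range (fun q : Str τ (Fin a) =>
          (⟨a, q⟩ : Σ a : ℕ, Str τ (Fin a))) := by
      rintro ⟨a, q⟩ ha
      exact Set.mem_biUnion (show a ∈ Set.Iic n from ha) ⟨q, rfl⟩
    refine ((Set.finite_Iic n).biUnion fun a _ => ?_).subset h1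
    have := finite_str τ (Fin a)
    exact Set.finite_range _
  refine ⟨hfin.toFinset.toList, fun a 𝔸 ha => ?_⟩
  rw [Finset.mem_toList, Set.Finite.mem_toFinset]
  exact ha

theorem pf_NR3 (h : Pool.Agent.H53.GR.T_NRI) : Pool.Agent.H53.GR.T_NR3 := by
  intro τ V _ 𝔹 M har hU n kc K χ
  classical
  set b := K.card with hb
  set e : Fin b ≃o K := K.orderIsoOfFin rfl with he
  set k : Fin b → V := fun i => (e i : V) with hk
  have hkK : ∀ i, k i ∈ K := fun i => (e i).2
  have hkm : StrictMono k := fun i j hij => e.strictMono hij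
  have hks : ∀ x ∈ K, ∃ i, k i = x := fun x hx => ⟨e.symm ⟨x, hx⟩, by simp [hk]⟩
  obtain ⟨l, hl⟩ := exists_list τ n
  have hB : OK 𝔹 M (pull 𝔹 k) := by
    intro m s _ hs _
    exact ⟨fun i => k (s i), fun i j hij => hs (hkm.injective hij), fun _ _ => Iff.rfl⟩
  have hne : Nonempty ((Fin n → Fin n) → Option (Fin kc)) := ⟨fun _ => none⟩
  obtain ⟨N, 𝕌, hC, hχ⟩ := h τ V ((Fin n → Fin n) → Option (Fin kc)) 𝔹 M l b (pull 𝔹 k) har hB
  obtain ⟨F, hF, hFc⟩ := hU N 𝕌 hC
  obtain ⟨φ, hφ, hφc⟩ := hχ (fun a f σ => if hσ : ∀ i, (σ i : ℕ) < a then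
    some (χ (fun i => F (f ⟨σ i, hσ i⟩))) else none)
  set g : V → V := fun x => if hx : x ∈ K then F (φ (e.symm ⟨x, hx⟩)) else x with hg
  have hgk : ∀ i, g (k i) = F (φ i) := by
    intro i
    have h1 : (⟨k i, hkK i⟩ : K) = e i := Subtype.ext rfl
    simp only [hg, dif_pos (hkK i), h1, OrderIso.symm_apply_apply]
  refine ⟨g, ?_, ?_, ?_⟩
  · intro x hx y hy hxy
    obtain ⟨i, rfl⟩ := hks x hx
    obtain ⟨j, rfl⟩ := hks y hy
    rw [hgk, hgk]
    exact hF (hφ.1 (hkm.lt_iff_lt.mp hxy))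
  · intro r z hz
    choose z₀ hz₀ using fun i => hks _ (hz i)
    have e0 : z = fun i => k (z₀ i) := funext fun i => (hz₀ i).symm
    have h1 : pull 𝕌 φ r z₀ = pull 𝔹 k r z₀ := congrFun (congrFun hφ.2 r) z₀
    have h2 := hFc.2 r (fun i => φ (z₀ i))
    rw [e0]
    have e1 : (fun i => g (k (z₀ i))) = fun i => F (φ (z₀ i)) := funext fun i => hgk _
    rw [e1, ← h2]
    exact iff_of_eq h1
  · intro x y hx hy hxy
    choose x₀ hx₀ using fun i => hks _ (hx i)
    choose y₀ hy₀ using fun i => hks _ (hy i)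
    have hlt : ∀ i j, x₀ i < x₀ j ↔ y₀ i < y₀ j := by
      intro i j
      have h1 := hxy.1 i j
      rw [← hx₀ i, ← hx₀ j, ← hy₀ i, ← hy₀ j, hkm.lt_iff_lt, hkm.lt_iff_lt] at h1
      exact h1
    have heq : ∀ i j, x₀ i = x₀ j → y₀ i = y₀ j := by
      intro i j hij
      refine le_antisymm ?_ ?_
      · refine not_lt.mp fun h1 => ?_
        have h2 := (hlt j i).mpr h1
        rw [hij] at h2
        exact lt_irrefl _ h2
      · refine not_lt.mp fun h1 => ?_
        have h2 := (hlt i j).mpr h1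
        rw [hij] at h2
        exact lt_irrefl _ h2
    set S : Finset (Fin b) := Finset.univ.image x₀ with hS
    set a := S.card with ha
    have han : a ≤ n := by
      refine Finset.card_image_le.trans ?_
      simp
    set E : Fin a ≃o S := S.orderIsoOfFin rfl with hE
    have hmem : ∀ i, x₀ i ∈ S := fun i => Finset.mem_image_of_mem _ (Finset.mem_univ i)
    set f : Fin a → Fin b := fun u => (E u : Fin b) with hf
    have hfm : StrictMono f := fun u v huv => E.strictMono huv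
    have hsec : ∀ u : Fin a, ∃ i, x₀ i = f u := by
      intro u
      obtain ⟨i, _, hi⟩ := Finset.mem_image.mp (E u).2
      exact ⟨i, hi⟩
    choose ρ hρ using hsec
    set σ : Fin n → Fin a := fun i => E.symm ⟨x₀ i, hmem i⟩ with hσ
    have hfσ : ∀ i, f (σ i) = x₀ i := by
      intro i
      simp only [hf, hσ, OrderIso.apply_symm_apply]
    set f' : Fin a → Fin b := fun u => y₀ (ρ u) with hf'
    have hf'σ : ∀ i, f' (σ i) = y₀ i := by
      intro i
      refine heq _ _ ?_
      rw [hρ, hfσ]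
    set σ' : Fin n → Fin n := fun i => ⟨σ i, (σ i).2.trans_le han⟩ with hσ'
    have hc1 : OCopy (pull (pull 𝔹 k) f) (pull 𝔹 k) f := ⟨hfm, rfl⟩
    have hc2 : OCopy (pull (pull 𝔹 k) f) (pull 𝔹 k) f' := by
      refine ⟨fun u v huv => ?_, ?_⟩
      · refine (hlt _ _).mp ?_
        rw [hρ, hρ]
        exact hfm huv
      · funext r z
        have h1 : pull 𝔹 x r (fun i => ρ (z i)) = pull 𝔹 y r (fun i => ρ (z i)) :=
          congrFun (congrFun hxy.2 r) _
        have h2 : (fun i => x (ρ (z i))) = fun i => k (f (z i)) := funext fun i => by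
          rw [← hx₀, hρ]
        have h3 : (fun i => y (ρ (z i))) = fun i => k (f' (z i)) := funext fun i => by
          rw [← hy₀]
        simp only [pull] at h1 ⊢
        rw [h2, h3] at h1
        exact h1.symm
    have hfin := congrFun (hφc _ (hl a (pull (pull 𝔹 k) f) han) f f' hc1 hc2) σ'
    have hlt' : ∀ i, (σ' i : ℕ) < a := fun i => (σ i).2
    simp only [dif_pos hlt', Option.some.injEq] at hfin
    have e1 : ∀ i, g (x i) = F (φ (f ⟨σ' i, hlt' i⟩)) := by
      intro i
      rw [← hx₀ i, hgk, ← hfσ i]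
    have e2 : ∀ i, g (y i) = F (φ (f' ⟨σ' i, hlt' i⟩)) := by
      intro i
      rw [← hy₀ i, hgk, ← hf'σ i]
    simp only [e1, e2]
    exact hfin

end Pool.Agent.H1.GR
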